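import Pool.Agent.Lib_helper13.BM.Final

/-!
# Cyclic covers of surfaces: the `p`-torsion of the jacobian of the branch curve excludes Tate classes

Let `K` be a number field that contains a primitive root of unity `ζ` of order `m = p ^ a > 1`, let
`G` be its absolute Galois group, and let `T(F)` be a function of the finite fields `F` over the
residue fields of `K` of one of the following forms (see `ConditionJ` and `ConditionW`).

* (J) `T(F)` is a sum of `m`-th power residue symbols of the values of polynomials, and there is a
  homomorphism `h : G → GL_2g(F_p)` with an open kernel whose traces at Frobenius elements are the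
  numbers modulo `p` of the points at which the polynomials do not vanish, such that the image of `h`
  contains the wreath product of `SL_2(F_p)` and a transitive group of permutations of degree `g`, or
  `p = 2`, `g ≥ 3` and it contains the orthogonal group of a nondegenerate quadratic form.
* (W) `T(F)` is the sum of the `m`-th power residue symbols of `D(t) (h(x) - t)` over `F × F`, the
  polynomials `D` and `h` are monic, the degree of `h` is an odd prime different from `p`, `D(h(x))`
  is irreducible over `K`, and some element of `G` interchanges two of its roots and fixes the others.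

The theorem: let `ρ_(ℓ,ι)` be the `ℓ`-adic Galois representations with the traces `ι(T(F))`, of
dimension `2g` in (J). If some eigenvalue of some element in one `ρ_(r,ι)(1)` is not a root of unity,
then for *all* primes `ℓ` no open subgroup of `G` acts trivially on a nonzero subquotient of
`ρ_(ℓ,ι)(1)`.

Example of (J): `T(F) = ∑ χ(f(x, y))`, the trace of Frobenius on the part of the second cohomology of
the surface `z ^ m = f(x, y)` that belongs to a character `χ` of order `m`, when the curve `f = 0` has
one place at infinity (and no singularities, or unibranch ones): `#{f ≠ 0}` is congruent to the trace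
on the first cohomology of the projective curve, so `h` is (the dual of) the Galois module of the
`p`-torsion points of the jacobian of the branch curve. For `m = 2` the sum of the residue symbols is
`#{(x, y, z) | z ^ 2 = f(x, y)} - |F| ^ 2`; this is the second assertion. Sums over the points of an
affine variety `b = 0` are of the form in (J), with coefficients `1` and `-1`, as `[H b ^ m]` is `[H]`
if `b ≠ 0` and `0` if `b = 0`.

The proof for (J). Let `R` be the `p`-adic member of the family. Its traces are congruent to the
numbers of points, so `h` is its reduction modulo the maximal ideal: the values of `h` span all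
matrices, hence `1` is congruent to all eigenvalues of `R(g)` if `h(g) = 1` and to no eigenvalue if
`h(g) - 1` is invertible. Let `E ≠ 0` be a subquotient of `ρ_(ℓ,ι)(1)` that is stable under `G` and
has a finite image. By density of the Frobenius elements the `g` with `h(g) = 1` act on `E` with
orders that are powers of `p`, and `g` has no eigenvalue `1` on `E` if `h(g) - 1` is invertible. Let
`c` be an element of `SL_2(F_p)` of order `r = 4` if `p` is odd and `r = 3` if `p = 2`. The torus
`(ℤ/r) ^ g` of the block matrices with blocks in `⟨c⟩` lifts to a finite group that acts on `E`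
(Sylow), and by the argument of Frattini its normalizer permutes the pairs of a coordinate and a
faithful character of `⟨c⟩` transitively (`n c n⁻¹ = c⁻¹` is solvable in `SL_2(F_p)`). A character of
the torus in `E` is nontrivial on all elements all of whose coordinates are nontrivial, hence it is
faithful on one coordinate and trivial on all others. So all `2g` characters of this form occur in
`E`, and `E` has the dimension `2g` of `ρ_(ℓ,ι)`. Hence `ρ_(ℓ,ι)(1)` has a finite image, and all
eigenvalues of all elements in all members of the family are roots of unity. For (W) see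
`Lib_helper46/DP`; for the orthogonal group see `Lib_helper28/TE28`.
-/

set_option autoImplicit false

namespace Pool.Agent.Results.MP_97f789_ag.BranchTorsion

open NumberField Polynomial Pool.Agent.BranchTorsion

theorem result {K : Type} [Field K] [NumberField K] [Algebra K Qbar] {p a : ℕ} [Fact p.Prime]
    {ζ : 𝓞 K} (hζ : IsPrimitiveRoot ζ (p ^ a)) (ha : 0 < a) :
    (∀ (T : ∀ (F : Type) [Field F] [Fintype F], (𝓞 K →+* F) → 𝓞 K) {d : ℕ}
      (ρ : ∀ (ℓ : ℕ) [Fact ℓ.Prime], (K →+* PadicAlgCl ℓ) →
        (Qbar ≃ₐ[K] Qbar) →* Matrix (Fin d) (Fin d) (PadicAlgCl ℓ)),
      ConditionJ p (p ^ a) ζ T d ∨ ConditionW p (p ^ a) ζ T →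
      (∀ (ℓ : ℕ) [Fact ℓ.Prime] (ι : K →+* PadicAlgCl ℓ), HasTraces T ι (ρ ℓ ι)) →
      (∃ (r : ℕ) (_ : Fact r.Prime) (ι : K →+* PadicAlgCl r), NotAllRootsOfUnity (ρ r ι)) →
      ∀ (ℓ : ℕ) [Fact ℓ.Prime] (ι : K →+* PadicAlgCl ℓ), NoTateClasses (ρ ℓ ι)) ∧
    (p ^ a = 2 → ∀ (F : Type) [Field F] [Fintype F] (φ : 𝓞 K →+* F), ringChar F ≠ 2 →
      ∀ f : F × F → F, ∑ P : F × F, residueSymbol (p ^ a) ζ φ (f P) =
        ((Nat.card {P : F × F × F // P.2.2 ^ 2 = f (P.1, P.2.1)} - (Fintype.card F : ℤ) ^ 2 : ℤ) :
          𝓞 K)) := by
  refine ⟨fun T d ρ hT hρ hB ℓ _ ι => BM.fn_cover hζ ha hT ρ hρ hB ℓ ι, ?_⟩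
  intro h F _ _ φ hF f
  rw [h] at hζ ⊢
  exact BC.fn_points φ hζ hF f

end Pool.Agent.Results.MP_97f789_ag.BranchTorsion
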