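import Pool.Agent.Lib_helper46.OR.Main

/-!
# The Tate conjecture in codimension one in odd rank: from one prime to all primes

Let `ρ ℓ`, for all prime numbers `ℓ`, be a compatible system of continuous orthogonal representations
of the absolute Galois group of the number field `K` over `ℂ_[ℓ]`, with rational traces and of odd
degree `m`, with unipotent inertia at all places outside a finite set `B₀` (and not above `ℓ`). For
a smooth projective surface `X` over `K` this is `H²(X)(1)` or the orthogonal complement of a space of
classes of divisors in it.

(a) For some prime number `p` and some element `g` of the Galois group exactly one eigenvalue of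
`ρ p g`, counted with multiplicity, is a root of unity.

(b) Every quadratic character `η` of the Galois group that is unramified outside `B₀`, the trivial
character included, is excluded: either for some prime number `p` and some `g` with `η(g) = -1` the
numbers `1` and `-1` are not both eigenvalues of `ρ p g`, or by a node of `ρ ℓ` with
`η(Frob) = -det(Frob)`, the determinant on the invariants of the inertia group. A node is a place at
which the inertia group acts through the identity and one reflection (Picard-Lefschetz: the
reduction of the variety acquires one ordinary double point); the points of the reduction give the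
traces on the invariants. For `η = 1` the condition is one node with the determinant `-1`.

Then no open subgroup of the Galois group acts trivially on a nonzero subquotient of `ρ ℓ`.

If the image of `ρ p` is open in the orthogonal group for one prime `p`, then (a) holds, and so does
(b) for all `η ≠ 1`: every coset of an open subgroup contains an element for which `1` and `-1` are
not both eigenvalues. So the statement for the other primes `ℓ` follows from one node with the sign
`-1` (not above `ℓ`). For `g⁻¹` a Frobenius element at a place of good reduction not above `p` the
conditions on `ρ p g` concern the numbers of points, and finitely many point counts prove them.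

In odd dimension `1` or `-1` is an eigenvalue of every `ρ p g`, and the roots of the Frobenius
polynomials do not distinguish an irreducible orthogonal representation of odd dimension from the
sum of a quadratic character and an orthogonal representation of even dimension; the sign at the
node does.
-/

set_option autoImplicit false

namespace Pool.Agent.Results.MP_97f789_ag.OddRank

open NumberField Polynomial Pool.Agent.OddRank

theorem result {K : Type} [Field K] [NumberField K] [Algebra K (AlgebraicClosure ℚ)]
    (B₀ : Finset (Ideal (𝓞 K))) {m : ℕ} (hm : Odd m) (ρ : ∀ (ℓ : ℕ) [Fact ℓ.Prime],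
      (AlgebraicClosure ℚ ≃ₐ[K] AlgebraicClosure ℚ) →* Matrix (Fin m) (Fin m) ℂ_[ℓ])
    (hρ : System B₀ ρ)
    (ha : ∃ (p : ℕ) (_ : Fact p.Prime) (g : AlgebraicClosure ℚ ≃ₐ[K] AlgebraicClosure ℚ),
      unityRoots (ρ p g).charpoly = 1)
    (ℓ : ℕ) [Fact ℓ.Prime]
    (hb : ∀ η : (AlgebraicClosure ℚ ≃ₐ[K] AlgebraicClosure ℚ) →* ℤˣ, IsQuadratic B₀ η →
      (∃ (p : ℕ) (_ : Fact p.Prime) (g : AlgebraicClosure ℚ ≃ₐ[K] AlgebraicClosure ℚ),
        η g = -1 ∧ ((ρ p g).charpoly.eval 1 ≠ 0 ∨ (ρ p g).charpoly.eval (-1) ≠ 0)) ∨
      ∃ 𝔓 : Ideal (𝓞 (AlgebraicClosure ℚ)), 𝔓.IsMaximal ∧ NodeWithSign (ρ ℓ) η 𝔓) :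
    NoTateClasses (ρ ℓ) :=
  fn_main ⟨ρ, hρ⟩ hm ha ℓ hb

end Pool.Agent.Results.MP_97f789_ag.OddRank
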