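import Pool.Agent.Lib_helper83.OF.Asm
import Pool.Agent.Lib_helper35.OF.Defs

/-!
# One element at one level bounds the Tate classes at all higher levels, for all `ℓ`

Let `K` be a number field, let `p` be a prime, let `m` be prime to `p` and let `ζ` be a primitive root
of unity of `K` of the order `m' = m * p ^ c`. Let `S` be a finite family of strata: affine spaces with
polynomials `H_i`, `G_i`, `D_i` over the integers of `K` and integer coefficients `c_i`. For
`n = 0, 1, 2, ...` let `K_n = K(μ_(p^n))` (`level K p n`). For the finite fields `F` over a residue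
field of `K_n` there are the sums (`towerSum`)

  `T_n(F) = ∑ c_i ∑ [H_i(x)]_(m') * [G_i(x) / D_i(x)]_(p^n)`

(`x` runs over all points over `F`, `[y]` is the power residue symbol). Geometrically, the `T_n(F)` are
the traces of Frobenius on the cohomology with compact support of a variety with coefficients in
`L_χ(H) ⊗ L_ψ(G / D)`, where `ψ` has the order `p ^ n`, this means on a part of the cohomology of the
covering `y ^ m' = H`, `z ^ (p ^ n) = G / D`. For example `m = 1`, `c = 1`, `H_1 = H`,
`G_1 / D_1 = x * y` on the affine plane: the surfaces `z ^ (p ^ n) = x * y * H ^ (p ^ (n - 1))`.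

Let `θ` be an embedding of `Qbar` into `ℂ_[p]`. Let `k ≥ c` be ONE level (`k = 0` is allowed) and let
`ρ` be a continuous representation of the Galois group of `K_k` over `ℂ_[p]` of dimension
`d < p ^ (b + 1)` with the traces `T_k(F)` modulo `|F| - 1` (`TracesOver`), for example the `p`-adic
representation of the level `k`. Let `g` be ONE element of this group that fixes all roots of unity
of `p`-power order (`FixesRoots`), or only those of one sufficiently large order (`FixesEnough`): `g`
fixes the roots of unity of order `p ^ (κ + t)`, where some `τ` in the group fixes those of order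
`p ^ κ` but not those of order `p ^ (κ + 1)`, `κ > 0` (`κ > 1` if `p = 2`), the matrices `ρ(σ)` have
entries in a ring `A` with `|a| = 1` or `|a| ^ (h * φ(p ^ c)) ≤ |p|` for all `a` in `A`, and
`p ^ t ≥ d * h`. For example, if `A` is the ring of integers of `ℚ_p(μ_(M * p ^ k))`, `p ∤ M`, then
`h = φ(p ^ k) / φ(p ^ c)`, and `g` can be the Frobenius element of ONE prime `q` of `K_k` of degree
one with `q ≡ 1` modulo `p ^ (κ + t)`; so the numbers of points over finitely many extensions of ONE
finite field are enough. Assume (`FarFromRoots`): for all roots of unity `μ_0, ..., μ_e` of orders that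
divide `M_i * p ^ (k + b)`, `M_i` prime to `p`, `φ(M_i) ≤ d * φ(m)` (`SmallRoot`), the remainder of
the characteristic polynomial of `ρ(g)` modulo `(X - μ_0) ... (X - μ_e)` has a coefficient `a` with
`|a| ^ φ(p ^ c) > |p|`. (For `e = 0` this says that `|det(μ - ρ(g))| ^ φ(p ^ c) > |p|` for all these
roots of unity `μ`.) `OneFrobenius` is the hypothesis that there are such `ρ` and `g`.

THEN, for ALL levels `n ≥ k`, `n > 0`, all primes `ℓ` and all `j`: if a representation `V` of
dimension `d` of the Galois group of `K_n` over the algebraic closure of `ℚ_ℓ` has the traces `T_n(F)`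
then no open subgroup acts trivially on a subquotient of dimension larger than `e` of `V(j)`.
(`ManyTateClasses` is the negation of this statement, for some `ℓ` and `V`.)

The hypothesis is a condition on one element of a FINITE group, the image of `ρ` modulo the elements
of absolute value at most `r`, where `r ^ φ(p ^ c) = |p|`.

The proof. (0) If `g` satisfies only `FixesEnough`, then it can be replaced by an element `g * u` that
fixes all roots of unity of `p`-power order, where `|ρ(u) - 1| ≤ r` (`ofa_replace`): for some `M` prime
to `p` the matrix `ρ(τ) ^ M - 1` is nilpotent modulo the maximal ideal, so its power of exponent `d * h`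
is at most `r`, and `|ρ(τ) ^ (M * p ^ t) - 1| ≤ r` (`of_mat`); the powers of `τ ^ (M * p ^ t)` have all
values `≡ 1` modulo `p ^ (κ + t)` of the cyclotomic character modulo `p ^ n` (`of_gal`); the set of
the `u` with `|ρ(u) - 1| ≤ r` is compact (`ofr_compact`); and `FarFromRoots` depends only on `ρ(g)`
modulo the elements of absolute value at most `r` (`ofr_far`).

(1) Let `n ≥ k` be a level with more than `e` Tate classes. There are Frobenius elements `σ` of
degree one over primes `q ≡ 1` modulo a high power of `p` that are close to `g⁻¹`. The power sums of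
the eigenvalues of `σ⁻¹` at all levels are the values of polynomials `Θ_l` over `ℤ[ζ]` at roots of unity
`w_n` of order `p ^ n`, `w_k = w_n ^ (p ^ (n - k))`. The orbits of the Frobenius map on the points of
the strata give an Euler product: the polynomials with these eigenvalues have the coefficients
`L_j(w_n)`, where the `L_j` are polynomials over `ℤ[ζ]` (`block_LF`; no denominators). At the level `n`
there are eigenvalues `q ^ j * μ_i`, `i = 0, ..., e`, where the `μ_i` are roots of unity. Their degree
over `ℚ(ζ, w_n)` is at most `d < p ^ (b + 1)`; so `μ_i = ξ_i * v_n ^ (u_i)`, where `v_n` has the order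
`p ^ (n + b)`, `v_n ^ (p ^ b) = w_n`, the order `M_i` of `ξ_i` is prime to `p` and
`φ(M_i) ≤ d * φ(m)` (`block_A_all`). The remainder of the polynomial with the coefficients
`L_j(v ^ (p ^ b))` modulo the product of the `X - ξ_i * v ^ (u_i)` is a polynomial in `v`; its
coefficients are small at `v = v_n`, and at `v = v_k` one of them, `a(v_k)`, is larger than `r`. Write
`a(v) = ∑ a_i (v - 1) ^ i`; the `a_i` lie in the ring that is generated by `ζ` and the `ξ_i`, so `|a_i|`
is `1` or at most `r` (`block_VAL`). Let `t` be the first index with `|a_t| = 1`. Then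
`|v_k - 1| ^ t > r`, and `|v_n - 1| ≥ |v_k - 1|` implies `|a(v_n)| = |v_n - 1| ^ t > r`, a
contradiction.
-/

set_option autoImplicit false

namespace Pool.Agent.Results.MP_97f789_ag.OneLevel

open NumberField Polynomial
open Pool.Agent.TT Pool.Agent.KT Pool.Agent.KP Pool.Agent.EFF Pool.Agent.OF

theorem result {K : Type} [Field K] [NumberField K] [Algebra K Qbar] {p : ℕ} [Fact p.Prime]
    (θ : Qbar →+* ℂ_[p]) {m c : ℕ} (hpm : ¬ p ∣ m) {ζ : 𝓞 K} (hζ : IsPrimitiveRoot ζ (m * p ^ c))
    {k : ℕ} (hck : c ≤ k) {d e b : ℕ} (hd : d < p ^ (b + 1)) {s : ℕ}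
    (S : Fin s → TowerStratum K) {ω : 𝓞 (level K p k)} (hω : IsPrimitiveRoot ω (p ^ k))
    (h : OneFrobenius θ m c ζ k b ω S d e) :
    ∀ n, k ≤ n → 0 < n → ∀ j, ¬ ManyTateClasses p (m * p ^ c) ζ S d j e n :=
  ofa_main θ hpm hζ hck hd S hω h

end Pool.Agent.Results.MP_97f789_ag.OneLevel
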