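import Pool.Agent.Lib_helper89.PG.Cong1

/-!
# One element at the bottom bounds the Tate classes of everything congruent to the bottom

Let `K` be a number field, let `p` be a prime and let `θ` be an embedding of `Qbar` into `ℂ_[p]`. A
system of eigenvalues over `K` (`FrobSystem`) on the affine space with `M` coordinates consists of
finite multisets `ε(F, x)` of algebraic numbers, for all finite fields `F` over a residue field of
`K` and all points `x` over `F`, such that `ε(F', u x)` consists of the `k`-th powers of the elements
of `ε(F, x)` for all homomorphisms `u : F → F'`, where `|F'| = |F| ^ k`. For example, for a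
constructible `λ`-adic sheaf on the affine space: the eigenvalues of Frobenius at `x`. The multisets
may be empty, so every constructible sheaf on a variety (cut into finitely many locally closed
pieces of affine spaces) is covered. The sums (`sysSum`)

  `T_ε(F) = ∑ c_i ∑ w` (over all points `x` over `F` and all `w` in `ε_i(F, x)`, `c_i` integers)

are, geometrically, the traces of Frobenius on the cohomology with compact support.

At the bottom there are systems `ε⁰_i` over `K` with `|θ(w)| ≤ 1` for all elements `w`, and a
continuous representation `ρ` of the Galois group of `K` over `ℂ_[p]` of dimension `d` with the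
traces `T_{ε⁰}(F)` modulo `|F| - 1`. Let `g` be ONE element of the Galois group of `K`. Assume that
at most `e` eigenvalues of `ρ(g)` (with multiplicity) are congruent to a root of unity all of whose
conjugates over the field of the `m`-th roots of unity are congruent to eigenvalues of `ρ(g)`
(`cycEig (ρ g) m ≤ e`, where `p` does not divide `m`; congruent means modulo the maximal ideal).

Let `L` be a number field over `K`. Assume that `g` fixes all roots of unity of `p`-power order and
that a power `g ^ (p ^ a)` fixes `L` (`PowerFixes`); or (`FixesLevel`) that `g` fixes only the roots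
of unity of order `p ^ (κ + t)`, where `p ^ t ≥ d` and `κ ≥ 1` (`κ ≥ 2` if `p = 2`) is a number such
that some element of the Galois group of `K` fixes the roots of unity of order `p ^ κ` but not those
of order `p ^ (κ + 1)`, and every `h` that fixes all roots of unity of `p`-power order has a power
`h ^ (p ^ a)` that fixes `L` (if `L` is contained in a Galois extension of `p`-power degree of
`K(μ_(p ^ N))` for some `N`, then every `h` has this property). For example, `g` can be a Frobenius
element at ONE prime of norm `q ≡ 1` modulo `p ^ (κ + t)`; if the traces of `ρ` are equal to the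
numbers `T_{ε⁰}(F)` then these numbers for `|F| = q, q ^ 2, ..., q ^ d` decide.

THEN, for all ranks `r` and ALL systems `ε_i` over `L` such that for all points `x` the elements of
`ε_i(F, x)` are congruent to the elements of `r` copies of `ε⁰_i(F, x)` (with multiplicity) and the
numbers `T_ε(F)` lie in the field of the roots of unity of order `m * p ^ n`, all primes `ℓ` and all
`j`: if a representation `V` of finite dimension of the Galois group of `L` over the algebraic
closure of `ℚ_ℓ` has the traces `T_ε(F)` then no open subgroup acts trivially on a subquotient of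
dimension larger than `r * e` of `V(j)`.

For example, let `ε⁰` be the eigenvalues of Frobenius for a family of varieties (or the power
residue symbols of polynomials `H_i`), and let `ε` be the products of these with the eigenvalues of
`τ(Frob_x)`, for a representation `τ` of dimension `r` of a group `G` of exponent `p ^ n` and a
Galois covering over `L` with this group: so the Tate classes on ALL coverings with a `p`-group are
bounded by one element of the Galois group at the bottom. The group need not be commutative, and the
dimensions of its irreducible representations are not bounded. Another example: families whose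
cohomology with coefficients in `𝔽_p` has the same semisimplification on every stratum, for example
families of elliptic curves with isomorphic `p`-torsion.

The proof. (1) In the second case `g` is multiplied by a limit `u` of powers of `τ ^ (M p ^ t)`, where
`τ` is the element in the definition of `κ` and `M` is the prime to `p` part of the order of its
image in a finite quotient: `ρ` is integral in some basis (`pgl_conj`), `ρ(τ) ^ M` is unipotent modulo the
maximal ideal, and `p ^ t ≥ d`, so `ρ(u)` is congruent to `1` and the residues of the eigenvalues of
`ρ(g u)` are those of `ρ(g)` (`pgof_replace`). (2) The residues of the eigenvalues of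
`g₁ = g ^ (p ^ a)` are the powers of exponent `p ^ a` of those of `g`, so `cycEig (ρ g₁) m ≤ e`.
(3) There are Frobenius elements `σ` of `L` of degree one over primes `q ≡ 1` modulo a high power of
`p` that are close to `g₁⁻¹`. If `V` has more than `r * e` Tate classes, then more than `r * e`
eigenvalues of `σ⁻¹` on `V` are of the form `q ^ j * μ`, where `μ` is a root of unity. (4) The orbits
of the Frobenius map on the points give Euler products: the polynomial `det(1 - t σ⁻¹ | V)` is
the product over the orbits `x` and the elements `w` of `ε_i(x)` of `(1 - w t ^ deg(x)) ^ (c_i)`.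
So it is congruent to the `r`-th power of the Euler product of `T_{ε⁰}`, which is congruent to
`det(1 - t ρ(g₁))` (Newton's recursion with factorials; `q` is close to `1`).
(5) The conjugates of a root `q ^ j * μ` over the field of the roots of unity of order `m * p ^ n`
are roots as well, and hence all conjugates over the field of the `m`-th roots of unity of the
factor of `μ` of order prime to `p` are congruent to eigenvalues of `ρ(g₁)`. (6) So more than `r * e`
roots of `det(X - ρ(g₁)) ^ r` modulo the maximal ideal (with multiplicity) are of the kind that is
counted by `cycEig (ρ g₁) m ≤ e`, a contradiction.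
-/

set_option autoImplicit false

namespace Pool.Agent.Results.MP_97f789_ag.PGroupCovers

open NumberField
open Pool.Agent.TT Pool.Agent.TF Pool.Agent.TU Pool.Agent.KT Pool.Agent.KP Pool.Agent.PG

theorem result {K L : Type} [Field K] [NumberField K] [Field L] [NumberField L] [Algebra K L]
    [Algebra K Qbar] [Algebra L Qbar] [IsScalarTower K L Qbar] {p : ℕ} [Fact p.Prime]
    (θ : Qbar →+* ℂ_[p]) {s : ℕ} (M : Fin s → ℕ) (c : Fin s → ℤ)
    (ε₀ : ∀ (i : Fin s) (F : Type) [Field F] [Fintype F], (𝓞 K →+* F) →
      (Fin (M i) → F) → Multiset Qbar) (hε₀ : ∀ i, FrobSystem (ε₀ i))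
    (hint : ∀ (i : Fin s) (F : Type) [Field F] [Fintype F] (φ : 𝓞 K →+* F) (x : Fin (M i) → F),
      ∀ w ∈ ε₀ i F φ x, ‖θ w‖ ≤ 1) {d e : ℕ}
    (ρ : (Qbar ≃ₐ[K] Qbar) →* Matrix (Fin d) (Fin d) ℂ_[p]) (hρ : Continuous ρ)
    (hbot : AtFrobenius fun σ F _ _ φ =>
      ‖(ρ σ⁻¹).trace - θ (sysSum M c fun i => ε₀ i F φ)‖ ≤ ‖(Fintype.card F : ℂ_[p]) - 1‖)
    {g : Qbar ≃ₐ[K] Qbar} (hg : (FixesRoots p g ∧ PowerFixes L p g) ∨ FixesLevel L p d g)
    {m : ℕ} (hpm : ¬ p ∣ m) (he : cycEig (ρ g) m ≤ e) {n r : ℕ}
    (ε : ∀ (i : Fin s) (F : Type) [Field F] [Fintype F], (𝓞 L →+* F) →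
      (Fin (M i) → F) → Multiset Qbar) (hε : ∀ i, FrobSystem (ε i))
    (hcong : ∀ (i : Fin s) (F : Type) [Field F] [Fintype F] (φ : 𝓞 L →+* F) (x : Fin (M i) → F),
      Multiset.Rel (fun w w₀ => ‖θ w - θ w₀‖ < 1) (ε i F φ x)
        (r • ε₀ i F (φ.comp (algebraMap (𝓞 K) (𝓞 L))) x))
    (hfield : ∀ (F : Type) [Field F] [Fintype F] (φ : 𝓞 L →+* F), (sysSum M c fun i => ε i F φ) ∈
      IntermediateField.adjoin ℚ {z : Qbar | z ^ (m * p ^ n) = 1})
    {ℓ : ℕ} [Fact ℓ.Prime] (ι : Qbar →+* PadicAlgCl ℓ) {V : Type} [AddCommGroup V]
    [Module (PadicAlgCl ℓ) V] [Module.Finite (PadicAlgCl ℓ) V]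
    (π : Representation (PadicAlgCl ℓ) (Qbar ≃ₐ[L] Qbar) V)
    (hπ : FrobeniusValues (fun σ => LinearMap.trace (PadicAlgCl ℓ) V (π σ))
      (fun F _ _ φ => ι (sysSum M c fun i => ε i F φ))) (j : ℕ) :
    TateClassesLE π j (r * e) :=
  pg_cong1 θ M c ε₀ hε₀ hint ρ hρ hbot hg hpm he ε hε hcong hfield ι π hπ j

end Pool.Agent.Results.MP_97f789_ag.PGroupCovers
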